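import Pool.Agent.H36.NT.A

/-!
# Module C: independence of the elements `c * (u₁(x) u₂(x) u₃(x)) ^ 2` over the base
-/

set_option autoImplicit false

namespace Pool.Agent.H35.NT

open Monoid

section C

variable {I : Type} {G : I → Type} [∀ i, Group (G i)] {K : Type} [Group K]
  (φ : ∀ i, K →* G i) {X : Type} {i1 i2 i3 : I} (u1 : X → G i1) (u2 : X → G i2) (u3 : X → G i3)
  (c : K)

/-- the homomorphism `K * F(X) → PushoutI φ` -/
noncomputable def Psi : Coprod K (FreeGroup X) →* PushoutI φ :=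
  Coprod.lift (PushoutI.base φ) (FreeGroup.lift fun x => PushoutI.base φ c *
    (PushoutI.of (φ := φ) i1 (u1 x) * PushoutI.of (φ := φ) i2 (u2 x) *
      PushoutI.of (φ := φ) i3 (u3 x)) ^ 2)

/-- small cancellation hypotheses -/
structure SC : Prop where
  h12 : i1 ≠ i2
  h23 : i2 ≠ i3
  h13 : i1 ≠ i3
  n1 : ∀ x, u1 x ∉ (φ i1).range
  n2 : ∀ x, u2 x ∉ (φ i2).range
  n3 : ∀ x, u3 x ∉ (φ i3).range
  left : ∀ (x y : X) (h h1 h2 h3 : K), (u1 x)⁻¹ * φ i1 h * u1 y = φ i1 h1 →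
    (u2 x)⁻¹ * φ i2 h1 * u2 y = φ i2 h2 → (u3 x)⁻¹ * φ i3 h2 * u3 y = φ i3 h3 → x = y ∧ h = 1
  right : ∀ (x y : X) (h h1 h2 h3 : K), u3 x * φ i3 h * (u3 y)⁻¹ = φ i3 h1 →
    u2 x * φ i2 h1 * (u2 y)⁻¹ = φ i2 h2 → u1 x * φ i1 h2 * (u1 y)⁻¹ = φ i1 h3 → x = y ∧ h = 1

/-! ### lists of syllables -/

omit [∀ i, Group (G i)] in
theorem red_aux {R : (Σ i, G i) → (Σ i, G i) → Prop} {l m : List (Σ i, G i)}
    (hl : l.IsChain R) (hm : m.IsChain R)
    (h : ∀ s ∈ l.getLast?, ∀ t ∈ m.head?, R s t) : (l ++ m).IsChain R :=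
  List.IsChain.append hl hm h

variable {φ}

theorem Red.append {l m : List (Σ i, G i)} (hl : Red φ l) (hm : Red φ m)
    (h : ∀ s ∈ l.getLast?, ∀ t ∈ m.head?, s.1 ≠ t.1) : Red φ (l ++ m) :=
  ⟨fun s hs => (List.mem_append.mp hs).elim (hl.1 s) (hm.1 s), red_aux hl.2 hm.2 h⟩

/-! ### letters -/

/-- the element of `K * F(X)` given by a list of letters -/
def evL (l : List (X × Bool × K)) : Coprod K (FreeGroup X) :=
  (l.map fun t => (if t.2.1 then Coprod.inr (FreeGroup.of t.1) else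
    (Coprod.inr (FreeGroup.of t.1))⁻¹) * Coprod.inl t.2.2).prod

/-- reduced lists of letters -/
def Rd (l : List (X × Bool × K)) : Prop :=
  l.IsChain fun s t => ¬ (s.1 = t.1 ∧ s.2.1 = !t.2.1 ∧ s.2.2 = 1)

omit [∀ i, Group (G i)] in
theorem evL_nil : evL ([] : List (X × Bool × K)) = 1 := rfl

theorem evL_cons (t : X × Bool × K) (l : List (X × Bool × K)) :
    evL (t :: l) = ((if t.2.1 then Coprod.inr (FreeGroup.of t.1) else
    (Coprod.inr (FreeGroup.of t.1))⁻¹) * Coprod.inl t.2.2) * evL l := by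
  simp [evL]

theorem evL_append (l m : List (X × Bool × K)) : evL (l ++ m) = evL l * evL m := by
  simp [evL]

theorem evL_mul_inl (l : List (X × Bool × K)) (hl : l ≠ []) (b : K) :
    ∃ l', l'.length = l.length ∧ evL l * Coprod.inl b = evL l' := by
  obtain ⟨m, t, rfl⟩ := List.eq_nil_or_concat l |>.resolve_left hl
  refine ⟨m ++ [(t.1, t.2.1, t.2.2 * b)], by simp, ?_⟩
  rw [List.concat_eq_append, evL_append, evL_append, evL_cons, evL_cons, evL_nil]
  simp [mul_assoc]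

theorem exists_evL (e : Coprod K (FreeGroup X)) : ∃ (b : K) (l : List (X × Bool × K)),
    e = Coprod.inl b * evL l := by
  let P : Coprod K (FreeGroup X) → Prop := fun e =>
    ∃ (b : K) (l : List (X × Bool × K)), e = Coprod.inl b * evL l
  have hinl : ∀ e, P e → ∀ b, P (e * Coprod.inl b) := by
    rintro e ⟨b', l, rfl⟩ b
    by_cases hl : l = []
    · exact ⟨b' * b, [], by simp [hl, evL_nil]⟩
    · obtain ⟨l', -, hl'⟩ := evL_mul_inl l hl b
      exact ⟨b', l', by rw [mul_assoc, hl']⟩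
  have hof : ∀ e, P e → ∀ x : X, P (e * Coprod.inr (FreeGroup.of x)) := by
    rintro e ⟨b', l, rfl⟩ x
    exact ⟨b', l ++ [(x, true, 1)], by rw [evL_append, evL_cons, evL_nil]; simp [mul_assoc]⟩
  have hinv : ∀ e, P e → ∀ x : X, P (e * (Coprod.inr (FreeGroup.of x))⁻¹) := by
    rintro e ⟨b', l, rfl⟩ x
    exact ⟨b', l ++ [(x, false, 1)], by rw [evL_append, evL_cons, evL_nil]; simp [mul_assoc]⟩
  have hinr : ∀ w : FreeGroup X, ∀ e, P e → P (e * Coprod.inr w) := by
    intro w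
    induction w using FreeGroup.induction_on with
    | C1 => intro e he; simpa using he
    | of x => intro e he; exact hof e he x
    | inv_of x _ => intro e he; rw [map_inv]; exact hinv e he x
    | mul x y hx hy => intro e he; rw [map_mul, ← mul_assoc]; exact hy _ (hx e he)
  have hall : ∀ e' e, P e → P (e * e') := by
    intro e'
    induction e' using Coprod.induction_on with
    | inl m => intro e he; exact hinl e he m
    | inr n => intro e he; exact hinr n e he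
    | mul x y hx hy => intro e he; rw [← mul_assoc]; exact hy _ (hx e he)
  have := hall e 1 ⟨1, [], by simp [evL_nil]⟩
  rwa [one_mul] at this

/-- a list of letters is reduced or can be shortened -/
theorem rd_or_shorter (l : List (X × Bool × K)) : Rd l ∨ ∃ (b : K) (l' : List (X × Bool × K)),
    l'.length < l.length ∧ evL l = Coprod.inl b * evL l' := by
  induction l with
  | nil => left; exact List.isChain_nil
  | cons t l ih =>
    rcases ih with ih | ⟨b, l', hl', h⟩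
    · rcases l with _ | ⟨s, l⟩
      · left; exact List.isChain_singleton _
      · by_cases hts : t.1 = s.1 ∧ t.2.1 = !s.2.1 ∧ t.2.2 = 1
        · right
          refine ⟨s.2.2, l, by simp, ?_⟩
          rw [evL_cons, evL_cons, ← mul_assoc]
          congr 1
          obtain ⟨h1, h2, h3⟩ := hts
          rw [h1, h2, h3]
          cases s.2.1 <;> simp
        · left; exact List.isChain_cons_cons.mpr ⟨hts, ih⟩
    · right
      refine ⟨1, (t.1, t.2.1, t.2.2 * b) :: l', by simp [hl'], ?_⟩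
      rw [evL_cons, evL_cons, h]
      simp [mul_assoc]

theorem exists_rd (l : List (X × Bool × K)) : ∃ (b : K) (l' : List (X × Bool × K)),
    Rd l' ∧ evL l = Coprod.inl b * evL l' := by
  induction h : l.length using Nat.strong_induction_on generalizing l with
  | _ n ih =>
    rcases rd_or_shorter l with hl | ⟨b, l', hl', he⟩
    · exact ⟨1, l, hl, by simp⟩
    · obtain ⟨b', l'', h1, h2⟩ := ih l'.length (h ▸ hl') l' rfl
      exact ⟨b * b', l'', h1, by rw [he, h2, map_mul, mul_assoc]⟩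

/-! ### junctions -/

theorem mul_base_not {i : I} {a : G i} (ha : a ∉ (φ i).range) (k : K) :
    a * φ i k ∉ (φ i).range := fun h => ha (by
  have := mul_mem h (inv_mem (MonoidHom.mem_range.mpr ⟨k, rfl⟩))
  simpa using this)

theorem inv_not {i : I} {a : G i} (ha : a ∉ (φ i).range) : a⁻¹ ∉ (φ i).range :=
  fun h => ha (by simpa using inv_mem h)

/-- six syllables -/
theorem junc6 {j1 j2 j3 k1 k2 k3 : I} (h12 : j1 ≠ j2) (h23 : j2 ≠ j3) (h31 : j3 ≠ k1)
    (g12 : k1 ≠ k2) (g23 : k2 ≠ k3) {p1 : G j1} {p2 : G j2} {p3 : G j3} {q1 : G k1} {q2 : G k2}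
    {q3 : G k3} (n1 : p1 ∉ (φ j1).range) (n2 : p2 ∉ (φ j2).range) (n3 : p3 ∉ (φ j3).range)
    (m1 : q1 ∉ (φ k1).range) (m2 : q2 ∉ (φ k2).range) (m3 : q3 ∉ (φ k3).range) (h : K) :
    ∃ J : List (Σ i, G i), Red φ J ∧ J ≠ [] ∧ (∀ a ∈ J.head?, a.1 = j1) ∧
      (∀ a ∈ J.getLast?, a.1 = k3) ∧
      (PushoutI.of (φ := φ) j1 p1 * PushoutI.of (φ := φ) j2 p2 * PushoutI.of (φ := φ) j3 p3) *
        PushoutI.base φ h * (PushoutI.of (φ := φ) k1 q1 * PushoutI.of (φ := φ) k2 q2 *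
          PushoutI.of (φ := φ) k3 q3) = lp φ J := by
  refine ⟨[⟨j1, p1⟩, ⟨j2, p2⟩, ⟨j3, p3 * φ j3 h⟩, ⟨k1, q1⟩, ⟨k2, q2⟩, ⟨k3, q3⟩], ⟨?_, ?_⟩,
    by simp, by simp, by simp, ?_⟩
  · intro s hs
    simp only [List.mem_cons, List.not_mem_nil, or_false] at hs
    rcases hs with rfl | rfl | rfl | rfl | rfl | rfl
    exacts [n1, n2, mul_base_not n3 h, m1, m2, m3]
  · simp [h12, h23, h31, g12, g23]
  · simp [lp, ← PushoutI.of_apply_eq_base φ j3 h, mul_assoc]

/-- three syllables -/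
theorem junc3 {j1 j2 j3 : I} (h12 : j1 ≠ j2) (h23 : j2 ≠ j3) {p1 : G j1} {p2 : G j2} {p3 : G j3}
    (n1 : p1 ∉ (φ j1).range) (n2 : p2 ∉ (φ j2).range) (n3 : p3 ∉ (φ j3).range) (h : K) :
    ∃ J : List (Σ i, G i), Red φ J ∧ J.length = 3 ∧ (∀ a ∈ J.head?, a.1 = j1) ∧
      (∀ a ∈ J.getLast?, a.1 = j3) ∧
      (PushoutI.of (φ := φ) j1 p1 * PushoutI.of (φ := φ) j2 p2 * PushoutI.of (φ := φ) j3 p3) *
        PushoutI.base φ h = lp φ J := by
  refine ⟨[⟨j1, p1⟩, ⟨j2, p2⟩, ⟨j3, p3 * φ j3 h⟩], ⟨?_, ?_⟩, by simp, by simp, by simp, ?_⟩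
  · intro s hs
    simp only [List.mem_cons, List.not_mem_nil, or_false] at hs
    rcases hs with rfl | rfl | rfl
    exacts [n1, n2, mul_base_not n3 h]
  · simp [h12, h23]
  · simp [lp, ← PushoutI.of_apply_eq_base φ j3 h, mul_assoc]

/-- five, three or one syllable -/
theorem junc5 {j1 j2 j3 : I} (h12 : j1 ≠ j2) (h23 : j2 ≠ j3)
    {p1 q1 : G j1} {p2 q2 : G j2} {p3 q3 : G j3} (n1 : p1 ∉ (φ j1).range)
    (n2 : p2 ∉ (φ j2).range) (m1 : q1 ∉ (φ j1).range) (m2 : q2 ∉ (φ j2).range) (h : K)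
    (hh : ∀ h1 h2 h3 : K, p3 * φ j3 h * q3 = φ j3 h1 → p2 * φ j2 h1 * q2 = φ j2 h2 →
      p1 * φ j1 h2 * q1 = φ j1 h3 → False) :
    ∃ J : List (Σ i, G i), Red φ J ∧ J ≠ [] ∧ (∀ a ∈ J.head?, a.1 = j1) ∧
      (∀ a ∈ J.getLast?, a.1 = j1) ∧
      (PushoutI.of (φ := φ) j1 p1 * PushoutI.of (φ := φ) j2 p2 * PushoutI.of (φ := φ) j3 p3) *
        PushoutI.base φ h * (PushoutI.of (φ := φ) j3 q3 * PushoutI.of (φ := φ) j2 q2 *
          PushoutI.of (φ := φ) j1 q1) = lp φ J := by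
  by_cases c3 : p3 * φ j3 h * q3 ∈ (φ j3).range
  · obtain ⟨h1, e1⟩ := c3
    have E1 : PushoutI.of (φ := φ) j3 p3 * PushoutI.base φ h * PushoutI.of (φ := φ) j3 q3 =
        PushoutI.base φ h1 := by
      rw [← PushoutI.of_apply_eq_base φ j3 h, ← map_mul, ← map_mul, ← e1,
        PushoutI.of_apply_eq_base]
    by_cases c2 : p2 * φ j2 h1 * q2 ∈ (φ j2).range
    · obtain ⟨h2, e2⟩ := c2
      have E2 : PushoutI.of (φ := φ) j2 p2 * PushoutI.base φ h1 * PushoutI.of (φ := φ) j2 q2 =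
          PushoutI.base φ h2 := by
        rw [← PushoutI.of_apply_eq_base φ j2 h1, ← map_mul, ← map_mul, ← e2,
          PushoutI.of_apply_eq_base]
      have c1 : p1 * φ j1 h2 * q1 ∉ (φ j1).range := fun ⟨h3, e3⟩ =>
        hh h1 h2 h3 e1.symm e2.symm e3.symm
      refine ⟨[⟨j1, p1 * φ j1 h2 * q1⟩], ⟨?_, ?_⟩, by simp, by simp, by simp, ?_⟩
      · intro s hs
        simp only [List.mem_cons, List.not_mem_nil, or_false] at hs
        subst hs
        exact c1
      · simp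
      · calc _ = PushoutI.of (φ := φ) j1 p1 * (PushoutI.of (φ := φ) j2 p2 *
              (PushoutI.of (φ := φ) j3 p3 * PushoutI.base φ h * PushoutI.of (φ := φ) j3 q3) *
              PushoutI.of (φ := φ) j2 q2) * PushoutI.of (φ := φ) j1 q1 := by
              simp only [mul_assoc]
          _ = _ := by
            rw [E1, E2, ← PushoutI.of_apply_eq_base φ j1 h2]
            simp [lp, mul_assoc]
    · refine ⟨[⟨j1, p1⟩, ⟨j2, p2 * φ j2 h1 * q2⟩, ⟨j1, q1⟩], ⟨?_, ?_⟩, by simp, by simp,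
        by simp, ?_⟩
      · intro s hs
        simp only [List.mem_cons, List.not_mem_nil, or_false] at hs
        rcases hs with rfl | rfl | rfl
        exacts [n1, c2, m1]
      · simp [h12, h12.symm]
      · calc _ = PushoutI.of (φ := φ) j1 p1 * (PushoutI.of (φ := φ) j2 p2 *
              (PushoutI.of (φ := φ) j3 p3 * PushoutI.base φ h * PushoutI.of (φ := φ) j3 q3) *
              PushoutI.of (φ := φ) j2 q2) * PushoutI.of (φ := φ) j1 q1 := by
              simp only [mul_assoc]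
          _ = _ := by
            rw [E1, ← PushoutI.of_apply_eq_base φ j2 h1]
            simp [lp, mul_assoc]
  · refine ⟨[⟨j1, p1⟩, ⟨j2, p2⟩, ⟨j3, p3 * φ j3 h * q3⟩, ⟨j2, q2⟩, ⟨j1, q1⟩], ⟨?_, ?_⟩,
      by simp, by simp, by simp, ?_⟩
    · intro s hs
      simp only [List.mem_cons, List.not_mem_nil, or_false] at hs
      rcases hs with rfl | rfl | rfl | rfl | rfl
      exacts [n1, n2, c3, m2, m1]
    · simp [h12, h12.symm, h23, h23.symm]
    · simp [lp, ← PushoutI.of_apply_eq_base φ j3 h, mul_assoc]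

variable (φ)

/-- the element `u₁(x) u₂(x) u₃(x)` or its inverse -/
noncomputable def ome (x : X) (ε : Bool) : PushoutI φ :=
  if ε then PushoutI.of (φ := φ) i1 (u1 x) * PushoutI.of (φ := φ) i2 (u2 x) *
      PushoutI.of (φ := φ) i3 (u3 x) else
    PushoutI.of (φ := φ) i3 (u3 x)⁻¹ * PushoutI.of (φ := φ) i2 (u2 x)⁻¹ *
      PushoutI.of (φ := φ) i1 (u1 x)⁻¹

variable {φ}

/-- the base element before a letter -/
def pre (ε : Bool) : K := if ε then c else 1

/-- the base element after a letter -/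
def post (ε : Bool) : K := if ε then 1 else c⁻¹

/-- the first index -/
def sti (i1 i3 : I) (ε : Bool) : I := if ε then i1 else i3

omit [∀ i, Group (G i)] in
theorem sti_ne (h13 : i1 ≠ i3) (ε : Bool) : sti i1 i3 (!ε) ≠ sti i1 i3 ε := by
  cases ε <;> simp [sti, h13, h13.symm]

theorem Psi_letter (t : X × Bool × K) (l : List (X × Bool × K)) :
    Psi φ u1 u2 u3 c (evL (t :: l)) = PushoutI.base φ (pre c t.2.1) * ome φ u1 u2 u3 t.1 t.2.1 *
      (ome φ u1 u2 u3 t.1 t.2.1 * PushoutI.base φ (post c t.2.1 * t.2.2)) *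
        Psi φ u1 u2 u3 c (evL l) := by
  obtain ⟨x, ε, h⟩ := t
  rw [evL_cons, map_mul, map_mul]
  congr 1
  cases ε
  · simp [Psi, pre, post, ome, pow_two, mul_assoc]
  · simp [Psi, pre, post, ome, pow_two, mul_assoc]

theorem junction (hs : SC φ u1 u2 u3) (s t : X × Bool × K)
    (hst : ¬ (s.1 = t.1 ∧ s.2.1 = !t.2.1 ∧ s.2.2 = 1)) :
    ∃ J : List (Σ i, G i), Red φ J ∧ J ≠ [] ∧ (∀ a ∈ J.head?, a.1 = sti i1 i3 s.2.1) ∧
      (∀ a ∈ J.getLast?, a.1 = sti i1 i3 (!t.2.1)) ∧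
      ome φ u1 u2 u3 s.1 s.2.1 * PushoutI.base φ (post c s.2.1 * s.2.2 * pre c t.2.1) *
        ome φ u1 u2 u3 t.1 t.2.1 = lp φ J := by
  obtain ⟨x, ε, h⟩ := s
  obtain ⟨y, δ, h'⟩ := t
  simp only at hst ⊢
  cases ε <;> cases δ
  · exact junc6 hs.h23.symm hs.h12.symm hs.h13 hs.h23.symm hs.h12.symm (inv_not (hs.n3 x))
      (inv_not (hs.n2 x)) (inv_not (hs.n1 x)) (inv_not (hs.n3 y)) (inv_not (hs.n2 y))
      (inv_not (hs.n1 y)) _
  · refine junc5 hs.h23.symm hs.h12.symm (inv_not (hs.n3 x)) (inv_not (hs.n2 x)) (hs.n3 y)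
      (hs.n2 y) _ fun h1 h2 h3 e1 e2 e3 => hst ?_
    obtain ⟨h4, h5⟩ := hs.left x y _ h1 h2 h3 e1 e2 e3
    refine ⟨h4, by simp, ?_⟩
    simp only [post, pre, Bool.false_eq_true, ↓reduceIte, mul_assoc, inv_mul_eq_one] at h5
    exact (mul_eq_right.mp h5.symm)
  · refine junc5 hs.h12 hs.h23 (hs.n1 x) (hs.n2 x) (inv_not (hs.n1 y)) (inv_not (hs.n2 y))
      _ fun h1 h2 h3 e1 e2 e3 => hst ?_
    obtain ⟨h4, h5⟩ := hs.right x y _ h1 h2 h3 e1 e2 e3
    refine ⟨h4, by simp, ?_⟩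
    simpa [post, pre] using h5
  · exact junc6 hs.h12 hs.h23 hs.h13.symm hs.h12 hs.h23 (hs.n1 x) (hs.n2 x) (hs.n3 x)
      (hs.n1 y) (hs.n2 y) (hs.n3 y) _

theorem ome_base (hs : SC φ u1 u2 u3) (x : X) (ε : Bool) (h : K) :
    ∃ J : List (Σ i, G i), Red φ J ∧ J.length = 3 ∧ (∀ a ∈ J.head?, a.1 = sti i1 i3 ε) ∧
      (∀ a ∈ J.getLast?, a.1 = sti i1 i3 (!ε)) ∧
      ome φ u1 u2 u3 x ε * PushoutI.base φ h = lp φ J := by
  cases ε
  · exact junc3 hs.h23.symm hs.h12.symm (inv_not (hs.n3 x))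
      (inv_not (hs.n2 x)) (inv_not (hs.n1 x)) _
  · exact junc3 hs.h12 hs.h23 (hs.n1 x) (hs.n2 x) (hs.n3 x) _

theorem growth_aux (hs : SC φ u1 u2 u3) (l : List (X × Bool × K)) :
    ∀ t : X × Bool × K, Rd (t :: l) → ∃ w : List (Σ i, G i), Red φ w ∧ l.length < w.length ∧
      (∀ a ∈ w.head?, a.1 = sti i1 i3 t.2.1) ∧
      Psi φ u1 u2 u3 c (evL (t :: l)) =
        PushoutI.base φ (pre c t.2.1) * ome φ u1 u2 u3 t.1 t.2.1 * lp φ w := by
  induction l with
  | nil =>
    intro t _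
    obtain ⟨J, h1, h2, h3, -, h5⟩ := ome_base u1 u2 u3 hs t.1 t.2.1 (post c t.2.1 * t.2.2)
    refine ⟨J, h1, by simp [h2], h3, ?_⟩
    rw [Psi_letter, h5, evL_nil, map_one, mul_one]
  | cons s l ih =>
    intro t ht
    have ht' := List.isChain_cons_cons.mp ht
    obtain ⟨w, h1, h2, h3, h4⟩ := ih s ht'.2
    obtain ⟨J, j1, j2, j3, j4, j5⟩ := junction u1 u2 u3 c hs t s ht'.1
    refine ⟨J ++ w, j1.append h1 ?_, ?_, ?_, ?_⟩
    · intro a ha b hb
      rw [j4 a ha, h3 b hb]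
      exact sti_ne hs.h13 _
    · have := List.length_pos_of_ne_nil j2
      simp only [List.length_cons, List.length_append]
      omega
    · intro a ha
      rw [List.head?_append_of_ne_nil _ j2] at ha
      exact j3 a ha
    · rw [Psi_letter, h4, lp_append, ← j5]
      simp only [map_mul, mul_assoc]

/-- growth of the image of a reduced list of letters -/
theorem growth (hs : SC φ u1 u2 u3) (l : List (X × Bool × K)) (hl : Rd l) (hne : l ≠ []) :
    ∃ (k : K) (w : List (Σ i, G i)), Red φ w ∧ l.length < w.length ∧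
      Psi φ u1 u2 u3 c (evL l) = PushoutI.base φ k * lp φ w := by
  obtain ⟨t, l, rfl⟩ := List.exists_cons_of_ne_nil hne
  obtain ⟨w, h1, h2, h3, h4⟩ := growth_aux u1 u2 u3 c hs l t hl
  obtain ⟨J, j1, j2, j3, j4, j5⟩ := ome_base u1 u2 u3 hs t.1 t.2.1 1
  refine ⟨pre c t.2.1, J ++ w, j1.append h1 ?_, ?_, ?_⟩
  · intro a ha b hb
    rw [j4 a ha, h3 b hb]
    exact sti_ne hs.h13 _
  · simp only [List.length_cons, List.length_append]
    omega
  · rw [h4, lp_append, ← j5, map_one]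
    simp only [mul_assoc, one_mul]

variable (φ)

/-- C1 -/
theorem Psi_injective (hφ : ∀ i, Function.Injective (φ i)) (h : SC φ u1 u2 u3) :
    Function.Injective (Psi φ u1 u2 u3 c) := by
  rw [injective_iff_map_eq_one]
  intro e he
  obtain ⟨b, l, rfl⟩ := exists_evL e
  obtain ⟨b', l', h1, h2⟩ := exists_rd l
  rw [h2] at he ⊢
  have hinl : ∀ b : K, Psi φ u1 u2 u3 c (Coprod.inl b) = PushoutI.base φ b := fun b => by
    simp [Psi]
  by_cases hl : l' = []
  · subst hl
    rw [evL_nil, mul_one, ← map_mul, hinl] at he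
    rw [evL_nil, mul_one, ← map_mul]
    have : b * b' = 1 := by
      rw [← PushoutI.of_apply_eq_base φ i1] at he
      exact hφ i1 (PushoutI.of_injective hφ i1 (by simpa using he))
    rw [this, map_one]
  · exfalso
    obtain ⟨k, w, w1, w2, w3⟩ := growth u1 u2 u3 c h l' h1 hl
    refine red_not_base hφ w1 (by rintro rfl; simp at w2) ?_
    rw [map_mul, map_mul, hinl, hinl, w3] at he
    refine ⟨(b * b' * k)⁻¹, ?_⟩
    rw [map_inv, map_mul, map_mul, inv_eq_iff_mul_eq_one, ← he]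
    simp only [mul_assoc]

/-- C2 -/
theorem Psi_growth (hφ : ∀ i, Function.Injective (φ i)) (h : SC φ u1 u2 u3)
    (e : Coprod K (FreeGroup X))
    (hb : ∃ N : ℕ, ∀ n : ℕ, ∃ m : List (Σ i, G i), m.length ≤ N ∧
      (Psi φ u1 u2 u3 c e) ^ n = lp φ m) :
    ∃ (k : Coprod K (FreeGroup X)) (b : K), e = k * Coprod.inl b * k⁻¹ := by
  classical
  let Q : ℕ → Prop := fun n => ∃ (k : Coprod K (FreeGroup X)) (b : K) (l : List (X × Bool × K)),
    l.length = n ∧ e = k * (Coprod.inl b * evL l) * k⁻¹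
  have hQ : ∃ n, Q n := by
    obtain ⟨b, l, he⟩ := exists_evL e
    exact ⟨l.length, 1, b, l, rfl, by simpa using he⟩
  obtain ⟨k, b, l, hl, he⟩ := Nat.find_spec hQ
  have hmin : ∀ n, n < l.length → ¬ Q n := fun n hn => Nat.find_min hQ (hl ▸ hn)
  by_cases hne : l = []
  · subst hne
    exact ⟨k, b, by rw [he, evL_nil, mul_one]⟩
  exfalso
  -- move the leading base element to the end
  obtain ⟨l', hl', he'⟩ := evL_mul_inl l hne b
  have he2 : e = (k * Coprod.inl b) * evL l' * (k * Coprod.inl b)⁻¹ := by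
    rw [he, ← he']
    group
  have hne' : l' ≠ [] := by
    rintro rfl
    exact hne (List.length_eq_zero_iff.mp (by simpa using hl'.symm))
  rw [← hl'] at hmin
  generalize k * Coprod.inl b = k' at he2
  -- `l'` is reduced
  have hrd : Rd l' := by
    rcases rd_or_shorter l' with h1 | ⟨b1, l1, h1, h2⟩
    · exact h1
    · exact absurd ⟨k', b1, l1, rfl, by rw [he2, h2]⟩ (hmin _ h1)
  -- `l'` is cyclically reduced
  have hcyc : ∀ s ∈ l'.getLast?, ∀ t ∈ l'.head?,
      ¬ (s.1 = t.1 ∧ s.2.1 = !t.2.1 ∧ s.2.2 = 1) := by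
    intro s hs t ht ⟨h1, h2, h3⟩
    obtain ⟨t', l1, rfl⟩ := List.exists_cons_of_ne_nil hne'
    have htt : t' = t := by simpa using ht
    subst htt
    rcases List.eq_nil_or_concat l1 with rfl | ⟨m, s', rfl⟩
    · have : t' = s := by simpa using hs
      subst this
      cases h4 : t'.2.1 <;> simp [h4] at h2
    · have hss : s' = s := by
        rw [List.concat_eq_append, ← List.cons_append, List.getLast?_append] at hs
        simpa using hs
      subst hss
      refine hmin m.length (by simp) ⟨k' * (if t'.2.1 then Coprod.inr (FreeGroup.of t'.1)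
        else (Coprod.inr (FreeGroup.of t'.1))⁻¹), t'.2.2, m, rfl, ?_⟩
      rw [he2, evL_cons, List.concat_eq_append, evL_append, evL_cons, evL_nil, h1, h2, h3]
      cases t'.2.1 <;> simp [mul_assoc]
  -- powers
  have hpw : ∀ n : ℕ, Rd (List.replicate n l').flatten ∧
      (∀ t ∈ (List.replicate n l').flatten.head?, t ∈ l'.head?) ∧
      (List.replicate n l').flatten.length = n * l'.length ∧
      evL (List.replicate n l').flatten = evL l' ^ n := by
    intro n
    induction n with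
    | zero => exact ⟨by simp [Rd], by simp, by simp, by simp [evL_nil]⟩
    | succ n ih =>
      obtain ⟨i1, i2, i3, i4⟩ := ih
      refine ⟨?_, ?_, ?_, ?_⟩
      · rw [List.replicate_succ, List.flatten_cons]
        exact List.IsChain.append hrd i1 fun s hs t ht => hcyc s hs t (i2 t ht)
      · intro t ht
        rwa [List.replicate_succ, List.flatten_cons, List.head?_append_of_ne_nil _ hne'] at ht
      · rw [List.replicate_succ, List.flatten_cons, List.length_append, i3]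
        ring
      · rw [List.replicate_succ, List.flatten_cons, evL_append, i4, pow_succ']
  obtain ⟨N, hN⟩ := hb
  obtain ⟨m1, hm1⟩ := exists_lp i1 (Psi φ u1 u2 u3 c k')
  obtain ⟨m2, hm2⟩ := exists_lp i1 (Psi φ u1 u2 u3 c k')⁻¹
  have hlen := List.length_pos_of_ne_nil hne'
  set n := m2.length + N + m1.length + 2 with hn
  obtain ⟨m, hm, hme⟩ := hN n
  obtain ⟨p1, -, p3, p4⟩ := hpw n
  obtain ⟨b0, w, w1, w2, w3⟩ := growth u1 u2 u3 c h _ p1 (by
    intro h0
    rw [h0] at p3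
    simp only [List.length_nil] at p3
    have : 0 < n * l'.length := Nat.mul_pos (by omega) hlen
    omega)
  have key : lp φ w = lp φ (⟨i1, φ i1 b0⁻¹⟩ :: (m2 ++ m ++ m1)) := by
    rw [lp_cons, lp_append, lp_append, ← hme, ← hm1, ← hm2, PushoutI.of_apply_eq_base, map_inv,
      eq_inv_mul_iff_mul_eq, ← w3, p4, he2]
    rw [map_mul, map_mul, map_inv, map_pow, conj_pow]
    group
  have := red_len_le hφ w1 _ key
  have h4 : n ≤ n * l'.length := Nat.le_mul_of_pos_right _ hlen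
  rw [p3] at w2
  simp only [List.length_cons, List.length_append] at this
  omega

end C

end Pool.Agent.H35.NT
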