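import Mathlib

/-!
# Definitions for project NT (a countable group with discrete Zariski topology)

* `Maln D`: the subgroup `D` is malnormal;
* `lp φ l`: the product in the amalgam `PushoutI φ` of a list of syllables;
* `Red φ l`: reduced lists of syllables.
-/

set_option autoImplicit false

namespace Pool.Agent.H35.NT

open Monoid

/-- malnormal subgroups -/
def Maln {G : Type} [Group G] (D : Subgroup G) : Prop :=
  ∀ g d : G, d ∈ D → d ≠ 1 → g⁻¹ * d * g ∈ D → g ∈ D

section

variable {I : Type} {G : I → Type} [∀ i, Group (G i)] {K : Type} [Group K]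

/-- the product of a list of syllables -/
def lp (φ : ∀ i, K →* G i) (l : List (Σ i, G i)) : PushoutI φ :=
  (l.map fun s => PushoutI.of (φ := φ) s.1 s.2).prod

/-- reduced lists: no syllable in the base, consecutive syllables in different factors -/
def Red (φ : ∀ i, K →* G i) (l : List (Σ i, G i)) : Prop :=
  (∀ s ∈ l, s.2 ∉ (φ s.1).range) ∧ l.IsChain (fun s t => s.1 ≠ t.1)

end

end Pool.Agent.H35.NT
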